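import Pool.Agent.MWA.StmtsP

set_option autoImplicit false

namespace Pool.Agent.MWA.H94Q

open Pool.Agent.Helper14_MV Pool.Agent.Helper2_MV Pool.Agent.MVO Pool.Agent.MWL Pool.Agent.MWS
open Pool.Agent.MWA

open Classical in
/-- the letters which are put in front of block `j` -/
noncomputable def pf (n : ℕ) (S S' : ℕ → Prop) (j : ℕ) : List ℕ :=
  (if S j then List.replicate (2 * n) 0 else []) ++ (if S' j then List.replicate (2 * n) 1 else [])

/-- the family with the additional letters -/
noncomputable def pl (n : ℕ) (S S' : ℕ → Prop) (B : ℕ → List ℕ) : ℕ → List ℕ :=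
  fun j => pf n S S' j ++ B j

open Classical in
theorem count0_pl (n : ℕ) (S S' : ℕ → Prop) (B : ℕ → List ℕ) (j : ℕ) :
    (pl n S S' B j).count 0 = (if S j then 2 * n else 0) + (B j).count 0 := by
  by_cases h1 : S j <;> by_cases h2 : S' j <;>
    simp [pl, pf, h1, h2, List.count_append, List.count_replicate]

open Classical in
theorem count1_pl (n : ℕ) (S S' : ℕ → Prop) (B : ℕ → List ℕ) (j : ℕ) :
    (pl n S S' B j).count 1 = (if S' j then 2 * n else 0) + (B j).count 1 := by
  by_cases h1 : S j <;> by_cases h2 : S' j <;>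
    simp [pl, pf, h1, h2, List.count_append, List.count_replicate]

theorem mem_pf {n : ℕ} (hn : 1 ≤ n) {S S' : ℕ → Prop} {j c : ℕ} (h : c ∈ pf n S S' j) :
    (c = 0 ∨ c = 1) ∧ 2 ≤ (pf n S S' j).count c := by
  unfold pf at h ⊢
  by_cases h1 : S j <;> by_cases h2 : S' j <;> simp [h1, h2, List.mem_replicate] at h ⊢
  · rcases h with h | h
    · rw [h.2]
      simp [List.count_replicate]
      omega
    · rw [h.2]
      simp [List.count_replicate]
      omega
  · rw [h.2]
    simp [List.count_replicate]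
    omega
  · rw [h.2]
    simp [List.count_replicate]
    omega

theorem ns0 (k : ℕ) : NS k 0 := by
  intro h; omega

theorem ns1 (k : ℕ) : NS k 1 := by
  intro h; omega

theorem deg_mono {k : ℕ} {a b : ℕ → ℕ} (h : ∀ j ≤ k, a j ≤ b j) : deg k a ≤ deg k b := by
  unfold deg
  apply Finset.sum_le_sum
  intro j hj
  exact h j (by simpa [Nat.lt_succ_iff] using hj)

theorem le_deg {k j : ℕ} (a : ℕ → ℕ) (h : j ≤ k) : a j ≤ deg k a := by
  unfold deg
  exact Finset.single_le_sum (f := a) (fun _ _ => Nat.zero_le _)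
    (by simpa [Nat.lt_succ_iff] using h)

theorem pl_ok {n k : ℕ} (hn : 1 ≤ n) {B : ℕ → List ℕ} (S S' : ℕ → Prop) (hB : OkB k B) :
    OkB k (pl n S S' B) := by
  refine ⟨?_, ?_⟩
  · intro j hj c hc
    rcases List.mem_append.1 hc with h | h
    · rcases (mem_pf hn h).1 with e | e
      · rw [e]; exact ns0 k
      · rw [e]; exact ns1 k
    · exact hB.ok j hj c h
  · intro j hj c hc
    rcases List.mem_append.1 hc with h | h
    · have h2 := (mem_pf hn h).2
      have h3 : (pl n S S' B j).count c ≤ deg k (fun j => (pl n S S' B j).count c) :=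
        le_deg (fun j => (pl n S S' B j).count c) hj
      have h4 : (pf n S S' j).count c ≤ (pl n S S' B j).count c := by
        unfold pl
        rw [List.count_append]
        omega
      omega
    · refine le_trans (hB.ml j hj c h) (deg_mono ?_)
      intro r _
      unfold pl
      rw [List.count_append]
      omega

theorem pl_two {n k : ℕ} (hn : 1 ≤ n) {B : ℕ → List ℕ} (S S' : ℕ → Prop) (hB : Two01 k B) :
    Two01 k (pl n S S' B) := by
  intro j hj c hc
  rcases List.mem_append.1 hc with h | h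
  · exact (mem_pf hn h).1
  · exact hB j hj c h

/-- the blocks of `w2` -/
def wb (a b : ℕ → ℕ) (e : ℕ → Bool) : ℕ → List ℕ := fun j => bl (a j) (b j) (e j)

theorem count0_bl (p q : ℕ) (e : Bool) : (bl p q e).count 0 = p := by
  cases e <;> simp [bl, List.count_replicate]

theorem count1_bl (p q : ℕ) (e : Bool) : (bl p q e).count 1 = q := by
  cases e <;> simp [bl, List.count_replicate]

theorem mem_bl {p q c : ℕ} {e : Bool} (h : c ∈ bl p q e) : c = 0 ∨ c = 1 := by
  cases e <;> simp [bl, List.mem_append, List.mem_replicate] at h <;> tauto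

theorem wb_ok {k : ℕ} {a b : ℕ → ℕ} (ha : 2 ≤ deg k a) (hb : 2 ≤ deg k b) (e : ℕ → Bool) :
    OkB k (wb a b e) := by
  refine ⟨?_, ?_⟩
  · intro j _ c hc
    rcases mem_bl hc with h | h
    · rw [h]; exact ns0 k
    · rw [h]; exact ns1 k
  · intro j _ c hc
    rcases mem_bl hc with h | h
    · rw [h]
      have : (fun j => (wb a b e j).count 0) = a := by
        funext r
        exact count0_bl _ _ _
      rw [this]
      exact ha
    · rw [h]
      have : (fun j => (wb a b e j).count 1) = b := by
        funext r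
        exact count1_bl _ _ _
      rw [this]
      exact hb

theorem wb_two (k : ℕ) (a b : ℕ → ℕ) (e : ℕ → Bool) : Two01 k (wb a b e) :=
  fun _ _ _ hc => mem_bl hc

theorem last_bl {p q : ℕ} (hp : p ≠ 0) (hq : q ≠ 0) (X : List ℕ) (e : Bool) :
    (X ++ bl p q e).getLast? = some (if e then 0 else 1) := by
  obtain ⟨p', rfl⟩ := Nat.exists_eq_succ_of_ne_zero hp
  obtain ⟨q', rfl⟩ := Nat.exists_eq_succ_of_ne_zero hq
  cases e
  · have : X ++ bl p'.succ q'.succ false =
        (X ++ List.replicate p'.succ 0 ++ List.replicate q' 1) ++ [1] := by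
      simp [bl, List.replicate_succ', List.append_assoc]
    rw [this]
    simp
  · have : X ++ bl p'.succ q'.succ true =
        (X ++ List.replicate q'.succ 1 ++ List.replicate p' 0) ++ [0] := by
      simp [bl, List.replicate_succ', List.append_assoc]
    rw [this]
    simp

theorem le_ad (n : ℕ) (a : ℕ → ℕ) (j r : ℕ) : a r ≤ ad n a j r := by
  unfold ad
  omega

/-- one letter: the non absorbing entries do not change -/
theorem key1 {n : ℕ} {β θ : FIC} (trn : MWL.TrnStmt) (hap : HapStmt) (hβ : BsP n β)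
    (hOL : OLN n β) (hle : β ≤ θ) (nθ : NC2 θ) {k : ℕ} {a c c' : ℕ → ℕ} {S : ℕ → Prop}
    (hS : ∀ j, S j ↔ (j ≤ k ∧ AbN n β k a j)) (hθ : ∀ j ≤ k, AbN n θ k a j → AbN n β k a j)
    (hc : ∀ j ≤ k, ¬ S j → c j = a j) (hc2 : ∀ j, S j → 2 ≤ c j) (hr : L1 θ k c c') :
    ∀ j ≤ k, ¬ S j → c' j = a j := by
  classical
  intro j hj hnS
  have hna : ¬ AbN n θ k c j := by
    intro h
    have h1 := (trn n (FC.ofFIC θ) k c j).2.1 (fun t => if S t then (n - 1) * c t + a t else 0) h
    have h2 : L1 β k a (fun t => c t + (if S t then (n - 1) * c t + a t else 0)) := by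
      refine (hap n β hβ.pos hβ.ap).2 k a _ ?_
      intro t ht
      by_cases hs : S t
      · right
        have e1 : c t + (if S t then (n - 1) * c t + a t else 0) = n * c t + a t := by
          rw [if_pos hs]
          obtain ⟨m, hm⟩ : ∃ m, n = m + 1 := ⟨n - 1, by have := hβ.pos; omega⟩
          rw [hm]
          simp
          ring
        refine ⟨?_, ?_, ((hS t).1 hs).2⟩
        · simp only [e1]
          have := hc2 t hs
          have h3 : 1 * c t ≤ n * c t := Nat.mul_le_mul_right _ hβ.pos
          omega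
        · simp only [e1]
          unfold Nat.ModEq
          rw [Nat.mul_add_mod]
      · left
        simp only [if_neg hs, add_zero]
        exact hc t ht hs
    have h3 : L1 θ k a (fun t => c t + (if S t then (n - 1) * c t + a t else 0)) := hle _ _ h2
    have h4 : AbN n θ k a j := ((trn n (FC.ofFIC θ) k a j).1 _ h3).2 h1
    exact hnS ((hS j).2 ⟨hj, hθ j hj h4⟩)
  have := hOL.key θ hle nθ k c c' hr j hj hna
  rw [← this]
  exact hc j hj hnS

theorem spq (trn : MWL.TrnStmt) (one : MVO.OneStmt) (chq : ChqStmt) (hap : HapStmt)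
    (gw2 : Gw2Stmt) (w2x : W2xStmt) (btf : BtfStmt) (btp : BtpStmt) (btr : BtrStmt) :
    SpqStmt := by
  classical
  intro n β hβ hcap hOL ρ σ hρ hσ nρ nσ k a b i da db la lb habs hsup
  by_contra hcon
  push Not at hcon
  obtain ⟨hnρ, hnσ⟩ := hcon
  have hn : 1 ≤ n := hβ.pos
  have hda : deg k a ≠ 1 := by omega
  have hdb : deg k b ≠ 1 := by omega
  obtain ⟨S, hS⟩ : ∃ S : ℕ → Prop, ∀ j, S j ↔ (j ≤ k ∧ AbN n β k a j) := ⟨_, fun _ => Iff.rfl⟩
  obtain ⟨S', hS'⟩ : ∃ S' : ℕ → Prop, ∀ j, S' j ↔ (j ≤ k ∧ AbN n β k b j) :=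
    ⟨_, fun _ => Iff.rfl⟩
  have hSi : ∀ j, S j → j ≤ i := by
    intro j hj
    obtain ⟨hjk, hab'⟩ := (hS j).1 hj
    by_contra hlt
    push Not at hlt
    have hd : deg k (ad n a j) ≠ 1 := by
      have := deg_mono (k := k) (fun r _ => le_ad n a j r)
      omega
    have h1 : Bt β k (ad n a j) b i := by
      refine (btp β hβ.cl hβ.r0).1 k (ad n a j) b i hd hdb ?_
      rintro ⟨⟨_, _, h3⟩, _⟩
      have := h3 j hlt hjk
      simp [ad] at this
      omega
    exact hnρ (Bt.mono hρ ((btf β k a (ad n a j) b b hab' (RR.refl _)).2 i h1))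
  have hSi' : ∀ j, S' j → j ≤ i := by
    intro j hj
    obtain ⟨hjk, hab'⟩ := (hS' j).1 hj
    by_contra hlt
    push Not at hlt
    have hd : deg k (ad n b j) ≠ 1 := by
      have := deg_mono (k := k) (fun r _ => le_ad n b j r)
      omega
    have h1 : Bt β k a (ad n b j) i := by
      refine (btp β hβ.cl hβ.r0).1 k a (ad n b j) i hda hd ?_
      rintro ⟨_, ⟨_, _, h3⟩⟩
      have := h3 j hlt hjk
      simp [ad] at this
      omega
    exact hnρ (Bt.mono hρ ((btf β k a a b (ad n b j) (RR.refl _) hab').2 i h1))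
  obtain ⟨e0, he0⟩ : ∃ e0 : ℕ → Bool, ∀ j, e0 j = false := ⟨fun _ => false, fun _ => rfl⟩
  -- the invariant
  obtain ⟨A, hA⟩ : ∃ A : (ℕ → List ℕ) → Prop, ∀ B, A B ↔
      ((∀ j ≤ k, (¬ S j → (B j).count 0 = a j) ∧ (¬ S' j → (B j).count 1 = b j)) ∧
        (pl n S S' B i).getLast? = some 1) := ⟨_, fun _ => Iff.rfl⟩
  have hstep : ∀ θ : FIC, β ≤ θ → NC2 θ → (∀ j ≤ k, AbN n θ k a j → AbN n β k a j) →
      (∀ j ≤ k, AbN n θ k b j → AbN n β k b j) → ¬ Bt θ k a b i → ∀ B B' : ℕ → List ℕ, OkB k B →
      OkB k B' → Two01 k B → Two01 k B' → RR θ (asm k B) (asm k B') → A B → A B' := by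
    intro θ hle nθ hθa hθb hnθ B B' hB hB' h2 h2' hr hAB
    obtain ⟨hcnt, hlast⟩ := (hA B).1 hAB
    have h1 : RR θ (asm k (pl n S S' B)) (asm k (pl n S S' B')) := by
      have := rr_ins' θ (pf n S S') (fun _ => []) hB.ok hB'.ok hr
      simp only [List.append_nil] at this
      exact this
    have hokp : OkB k (pl n S S' B) := pl_ok hn S S' hB
    have hokp' : OkB k (pl n S S' B') := pl_ok hn S S' hB'
    obtain ⟨c, hcdef⟩ : ∃ c, c = ty (pl n S S' B) 0 := ⟨_, rfl⟩
    obtain ⟨d, hddef⟩ : ∃ d, d = ty (pl n S S' B) 1 := ⟨_, rfl⟩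
    obtain ⟨c', hcdef'⟩ : ∃ c', c' = ty (pl n S S' B') 0 := ⟨_, rfl⟩
    obtain ⟨d', hddef'⟩ : ∃ d', d' = ty (pl n S S' B') 1 := ⟨_, rfl⟩
    have t0 : L1 θ k c c' := by
      have := one.1 θ k (pl n S S' B) (pl n S S' B') 0 (ns0 k) hokp.ok hokp'.ok h1
      rw [hcdef, hcdef']
      exact this
    have t1 : L1 θ k d d' := by
      have := one.1 θ k (pl n S S' B) (pl n S S' B') 1 (ns1 k) hokp.ok hokp'.ok h1
      rw [hddef, hddef']
      exact this
    have ec : ∀ j, c j = (if S j then 2 * n else 0) + (B j).count 0 := by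
      intro j; rw [hcdef]; exact count0_pl n S S' B j
    have ed : ∀ j, d j = (if S' j then 2 * n else 0) + (B j).count 1 := by
      intro j; rw [hddef]; exact count1_pl n S S' B j
    have ec' : ∀ j, c' j = (if S j then 2 * n else 0) + (B' j).count 0 := by
      intro j; rw [hcdef']; exact count0_pl n S S' B' j
    have ed' : ∀ j, d' j = (if S' j then 2 * n else 0) + (B' j).count 1 := by
      intro j; rw [hddef']; exact count1_pl n S S' B' j
    have hca : ∀ j ≤ k, ¬ S j → c j = a j := by
      intro j hj hs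
      rw [ec, if_neg hs, (hcnt j hj).1 hs]
      omega
    have hdb' : ∀ j ≤ k, ¬ S' j → d j = b j := by
      intro j hj hs
      rw [ed, if_neg hs, (hcnt j hj).2 hs]
      omega
    have hc2 : ∀ j, S j → 2 ≤ c j := by
      intro j hs
      rw [ec, if_pos hs]
      omega
    have hd2 : ∀ j, S' j → 2 ≤ d j := by
      intro j hs
      rw [ed, if_pos hs]
      omega
    have hca' := key1 trn hap hβ hOL hle nθ hS hθa hca hc2 t0
    have hdb'' := key1 trn hap hβ hOL hle nθ hS' hθb hdb' hd2 t1
    have hcnt' : ∀ j ≤ k, (¬ S j → (B' j).count 0 = a j) ∧ (¬ S' j → (B' j).count 1 = b j) := by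
      intro j hj
      refine ⟨fun hs => ?_, fun hs => ?_⟩
      · have := hca' j hj hs
        rw [ec', if_neg hs] at this
        omega
      · have := hdb'' j hj hs
        rw [ed', if_neg hs] at this
        omega
    refine (hA B').2 ⟨hcnt', ?_⟩
    have lc : Lst k c i := by
      refine ⟨la.1, ?_, ?_⟩
      · by_cases hs : S i
        · have := hc2 i hs
          omega
        · rw [hca i la.1 hs]
          exact la.2.1
      · intro j hj hjk
        have hs : ¬ S j := fun h => absurd (hSi j h) (by omega)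
        rw [hca j hjk hs]
        exact la.2.2 j hj hjk
    have ld : Lst k d i := by
      refine ⟨lb.1, ?_, ?_⟩
      · by_cases hs : S' i
        · have := hd2 i hs
          omega
        · rw [hdb' i lb.1 hs]
          exact lb.2.1
      · intro j hj hjk
        have hs : ¬ S' j := fun h => absurd (hSi' j h) (by omega)
        rw [hdb' j hjk hs]
        exact lb.2.2 j hj hjk
    have hdc : 2 ≤ deg k c := by
      have hm : (0 : ℕ) ∈ pl n S S' B i := by
        have h := lc.2.1
        rw [hcdef] at h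
        exact List.count_pos_iff.1 (Nat.pos_of_ne_zero h)
      have := hokp.ml i la.1 0 hm
      rw [hcdef]
      exact this
    have hdd : 2 ≤ deg k d := by
      have hm : (1 : ℕ) ∈ pl n S S' B i := by
        have h := ld.2.1
        rw [hddef] at h
        exact List.count_pos_iff.1 (Nat.pos_of_ne_zero h)
      have := hokp.ml i la.1 1 hm
      rw [hddef]
      exact this
    obtain ⟨e, he⟩ : ∃ e : ℕ → Bool, ∀ j, e j = true ↔
        (pl n S S' B j).getLast? = some 0 :=
      ⟨fun j => decide ((pl n S S' B j).getLast? = some 0), fun j => by simp⟩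
    obtain ⟨e', he'⟩ : ∃ e' : ℕ → Bool, ∀ j, e' j = true ↔
        (pl n S S' B' j).getLast? = some 0 :=
      ⟨fun j => decide ((pl n S S' B' j).getLast? = some 0), fun j => by simp⟩
    have g := gw2 β hβ.cl k (pl n S S' B) e hokp (pl_two hn S S' h2) (fun i' _ _ => he i')
    have g' := gw2 β hβ.cl k (pl n S S' B') e' hokp' (pl_two hn S S' h2') (fun i' _ _ => he' i')
    rw [← hcdef, ← hddef] at g
    rw [← hcdef', ← hddef'] at g'
    have h5 : RR θ (w2 k c d e) (w2 k c d e') := by
      have f1 : RR θ (w2 k c d e) (asm k (pl n S S' B)) := RR.symm (hle _ _ g)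
      have f2 : RR θ (asm k (pl n S S' B')) (w2 k c' d' e') := hle _ _ g'
      have f3 : RR θ (w2 k c' d' e') (w2 k c d e') :=
        RR.symm ((btf θ k c c' d d' t0 t1).1 e')
      exact θ.trans f1 (θ.trans h1 (θ.trans f2 f3))
    have hei : e i = false := by
      have : ¬ (e i = true) := by
        intro h
        have h6 := (he i).1 h
        rw [hlast] at h6
        simp at h6
      simpa using this
    have hei' : ¬ (e' i = true) := by
      intro h
      have h6 : Bt θ k c d i := w2x θ (ClA.mono hβ.cl hle) k c d i e e' (by omega) (by omega) lc ld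
        (by rw [hei, h]; decide) h5
      have hbs : BsP n θ := hβ.mono hle
      have h7 : Bt θ k a d i := btr n θ hbs k a c d i hdc hdd lc ld (by
        intro r hr'
        by_cases hs : S r
        · right
          exact AbN.mono hle ((hS r).1 hs).2
        · left
          exact hca r hr' hs) h6
      have h8 : Bt θ k d a i := (btp θ hbs.cl hbs.r0).2.1 k a d i h7
      have h9 : Bt θ k b a i := btr n θ hbs k b d a i hdd da ld la (by
        intro r hr'
        by_cases hs : S' r
        · right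
          exact AbN.mono hle ((hS' r).1 hs).2
        · left
          exact hdb' r hr' hs) h8
      exact hnθ ((btp θ hbs.cl hbs.r0).2.1 k b a i h9)
    have hc0 : c' i ≠ 0 := by
      by_cases hs : S i
      · rw [ec', if_pos hs]
        omega
      · rw [hca' i la.1 hs]
        exact la.2.1
    have hmem : (0 : ℕ) ∈ pl n S S' B' i := by
      rw [hcdef'] at hc0
      exact List.count_pos_iff.1 (Nat.pos_of_ne_zero hc0)
    have hne : pl n S S' B' i ≠ [] := List.ne_nil_of_mem hmem
    have hgl : (pl n S S' B' i).getLast? = some ((pl n S S' B' i).getLast hne) :=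
      List.getLast?_eq_some_getLast hne
    have h01 := pl_two hn S S' h2' i la.1 _ (List.getLast_mem hne)
    rcases h01 with h | h
    · exfalso
      apply hei'
      rw [he', hgl, h]
    · rw [hgl, h]
  obtain ⟨B'', hv, hok'', -, hch⟩ := chq β ρ σ hcap hρ hσ nρ nσ k (wb a b e0)
    (w2 k a b (flp e0 i)) (wb_ok da db e0) (hsup e0)
  have hA0 : A (wb a b e0) := by
    refine (hA _).2 ⟨fun j _ => ⟨fun _ => count0_bl _ _ _, fun _ => count1_bl _ _ _⟩, ?_⟩
    have : (pl n S S' (wb a b e0) i).getLast? = some (if e0 i then 0 else 1) :=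
      last_bl la.2.1 lb.2.1 _ _
    rw [this, he0]
    simp
  have hall : ∀ C, Relation.ReflTransGen (StM ρ σ k) (wb a b e0) C →
      Two01 k C ∧ A C := by
    intro C hC
    induction hC with
    | refl => exact ⟨wb_two k a b e0, hA0⟩
    | @tail C1 C2 _ hst ih =>
      obtain ⟨ho, ho', hsub, hor⟩ := hst
      have htw : Two01 k C2 := by
        intro j hj c hc
        obtain ⟨j', hj', hc'⟩ := hsub c ⟨j, hj, hc⟩
        exact ih.1 j' hj' c hc'
      refine ⟨htw, ?_⟩
      rcases hor with h | h
      · exact hstep ρ hρ nρ (fun j hj => (habs j hj).1) (fun j hj => (habs j hj).2.2.1) hnρ _ _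
          ho ho' ih.1 htw h ih.2
      · exact hstep σ hσ nσ (fun j hj => (habs j hj).2.1) (fun j hj => (habs j hj).2.2.2) hnσ _ _
          ho ho' ih.1 htw h ih.2
  have hu := uniq (wb_ok da db (flp e0 i)).ok hok''.ok hv
  have hfin := ((hA _).1 (hall B'' hch).2).2
  have hB : pl n S S' B'' i = pl n S S' (wb a b (flp e0 i)) i := by
    unfold pl
    rw [hu i la.1]
  rw [hB] at hfin
  have h7 : (pl n S S' (wb a b (flp e0 i)) i).getLast? = some (if flp e0 i i then 0 else 1) :=
    last_bl la.2.1 lb.2.1 _ _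
  rw [h7] at hfin
  simp [flp, he0] at hfin

end Pool.Agent.MWA.H94Q
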