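import Pool.Agent.MWA.Stmts

set_option autoImplicit false

namespace Pool.Agent.MWA.H94

open Pool.Agent.Helper14_MV Pool.Agent.Helper2_MV Pool.Agent.MVO Pool.Agent.MWL Pool.Agent.MWS
open Pool.Agent.MWA

open Classical in
/-- the letters which are put in front of block `j` -/
noncomputable def pf (S S' : ℕ → Prop) (j : ℕ) : List ℕ :=
  (if S j then [0, 0] else []) ++ (if S' j then [1, 1] else [])

/-- the family with the additional letters -/
noncomputable def pl (S S' : ℕ → Prop) (B : ℕ → List ℕ) : ℕ → List ℕ := fun j => pf S S' j ++ B j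

open Classical in
theorem count0_pl (S S' : ℕ → Prop) (B : ℕ → List ℕ) (j : ℕ) :
    (pl S S' B j).count 0 = (if S j then 2 else 0) + (B j).count 0 := by
  by_cases h1 : S j <;> by_cases h2 : S' j <;>
    simp [pl, pf, h1, h2, List.count_cons] <;> omega

open Classical in
theorem count1_pl (S S' : ℕ → Prop) (B : ℕ → List ℕ) (j : ℕ) :
    (pl S S' B j).count 1 = (if S' j then 2 else 0) + (B j).count 1 := by
  by_cases h1 : S j <;> by_cases h2 : S' j <;>
    simp [pl, pf, h1, h2, List.count_cons] <;> omega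

theorem mem_pf {S S' : ℕ → Prop} {j c : ℕ} (h : c ∈ pf S S' j) :
    (c = 0 ∨ c = 1) ∧ 2 ≤ (pf S S' j).count c := by
  unfold pf at h ⊢
  by_cases h1 : S j <;> by_cases h2 : S' j <;> simp [h1, h2] at h ⊢
  · rcases h with h | h <;> subst h <;> simp
  · subst h; simp
  · subst h; simp

theorem ns0 (k : ℕ) : NS k 0 := by
  intro h; omega

theorem ns1 (k : ℕ) : NS k 1 := by
  intro h; omega

theorem deg_mono {k : ℕ} {a b : ℕ → ℕ} (h : ∀ j ≤ k, a j ≤ b j) : deg k a ≤ deg k b := by
  unfold deg
  apply Finset.sum_le_sum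
  intro j hj
  exact h j (by simpa [Nat.lt_succ_iff] using hj)

theorem le_deg {k j : ℕ} (a : ℕ → ℕ) (h : j ≤ k) : a j ≤ deg k a := by
  unfold deg
  exact Finset.single_le_sum (f := a) (fun _ _ => Nat.zero_le _)
    (by simpa [Nat.lt_succ_iff] using h)

theorem pl_ok {k : ℕ} {B : ℕ → List ℕ} (S S' : ℕ → Prop) (hB : OkB k B) : OkB k (pl S S' B) := by
  refine ⟨?_, ?_⟩
  · intro j hj c hc
    rcases List.mem_append.1 hc with h | h
    · rcases (mem_pf h).1 with e | e
      · rw [e]; exact ns0 k
      · rw [e]; exact ns1 k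
    · exact hB.ok j hj c h
  · intro j hj c hc
    rcases List.mem_append.1 hc with h | h
    · have h2 := (mem_pf h).2
      have h3 : (pl S S' B j).count c ≤ deg k (fun j => (pl S S' B j).count c) :=
        le_deg (fun j => (pl S S' B j).count c) hj
      have h4 : (pf S S' j).count c ≤ (pl S S' B j).count c := by
        unfold pl
        rw [List.count_append]
        omega
      omega
    · refine le_trans (hB.ml j hj c h) (deg_mono ?_)
      intro r _
      unfold pl
      rw [List.count_append]
      omega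

theorem pl_two {k : ℕ} {B : ℕ → List ℕ} (S S' : ℕ → Prop) (hB : Two01 k B) :
    Two01 k (pl S S' B) := by
  intro j hj c hc
  rcases List.mem_append.1 hc with h | h
  · exact (mem_pf h).1
  · exact hB j hj c h

/-- the blocks of `w2` -/
def wb (a b : ℕ → ℕ) (e : ℕ → Bool) : ℕ → List ℕ := fun j => bl (a j) (b j) (e j)

theorem count0_bl (p q : ℕ) (e : Bool) : (bl p q e).count 0 = p := by
  cases e <;> simp [bl, List.count_replicate]

theorem count1_bl (p q : ℕ) (e : Bool) : (bl p q e).count 1 = q := by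
  cases e <;> simp [bl, List.count_replicate]

theorem mem_bl {p q c : ℕ} {e : Bool} (h : c ∈ bl p q e) : c = 0 ∨ c = 1 := by
  cases e <;> simp [bl, List.mem_append, List.mem_replicate] at h <;> tauto

theorem wb_ok {k : ℕ} {a b : ℕ → ℕ} (ha : 2 ≤ deg k a) (hb : 2 ≤ deg k b) (e : ℕ → Bool) :
    OkB k (wb a b e) := by
  refine ⟨?_, ?_⟩
  · intro j _ c hc
    rcases mem_bl hc with h | h
    · rw [h]; exact ns0 k
    · rw [h]; exact ns1 k
  · intro j _ c hc
    rcases mem_bl hc with h | h
    · rw [h]
      have : (fun j => (wb a b e j).count 0) = a := by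
        funext r
        exact count0_bl _ _ _
      rw [this]
      exact ha
    · rw [h]
      have : (fun j => (wb a b e j).count 1) = b := by
        funext r
        exact count1_bl _ _ _
      rw [this]
      exact hb

theorem wb_two (k : ℕ) (a b : ℕ → ℕ) (e : ℕ → Bool) : Two01 k (wb a b e) :=
  fun _ _ _ hc => mem_bl hc

theorem last_bl {p q : ℕ} (hp : p ≠ 0) (hq : q ≠ 0) (X : List ℕ) (e : Bool) :
    (X ++ bl p q e).getLast? = some (if e then 0 else 1) := by
  obtain ⟨p', rfl⟩ := Nat.exists_eq_succ_of_ne_zero hp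
  obtain ⟨q', rfl⟩ := Nat.exists_eq_succ_of_ne_zero hq
  cases e
  · have : X ++ bl p'.succ q'.succ false =
        (X ++ List.replicate p'.succ 0 ++ List.replicate q' 1) ++ [1] := by
      simp [bl, List.replicate_succ', List.append_assoc]
    rw [this]
    simp
  · have : X ++ bl p'.succ q'.succ true =
        (X ++ List.replicate q'.succ 1 ++ List.replicate p' 0) ++ [0] := by
      simp [bl, List.replicate_succ', List.append_assoc]
    rw [this]
    simp

theorem lst_uniq {k : ℕ} {a : ℕ → ℕ} {i i' : ℕ} (h : Lst k a i) (h' : Lst k a i') : i' = i := by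
  rcases lt_trichotomy i i' with hlt | he | hlt
  · exact absurd (h.2.2 i' hlt h'.1) h'.2.1
  · exact he.symm
  · exact absurd (h'.2.2 i hlt h.1) h.2.1

theorem le_a2 (a : ℕ → ℕ) (j r : ℕ) : a r ≤ a2 a j r := by
  unfold a2
  omega

theorem spx (one : MVO.OneStmt) (chn : MWS.ChnStmt) (ica : IcaStmt) (hab : HabStmt) (gw2 : Gw2Stmt)
    (w2r : W2rStmt) (w2x : W2xStmt) (btf : BtfStmt) (bta : BtaStmt) : SpxStmt := by
  classical
  intro β hβ hOL ρ σ hρ hσ nρ nσ k a b i da db la lb habs hsup
  by_contra hcon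
  push Not at hcon
  obtain ⟨hnρ, hnσ⟩ := hcon
  have hap : RR β [0, 0] [0, 0, 0] := hβ.ap
  have hda : deg k a ≠ 1 := by omega
  have hdb : deg k b ≠ 1 := by omega
  obtain ⟨S, hS⟩ : ∃ S : ℕ → Prop, ∀ j, S j ↔ (j ≤ k ∧ AbF β k a j) := ⟨_, fun _ => Iff.rfl⟩
  obtain ⟨S', hS'⟩ : ∃ S' : ℕ → Prop, ∀ j, S' j ↔ (j ≤ k ∧ AbF β k b j) := ⟨_, fun _ => Iff.rfl⟩
  have hSi : ∀ j, S j → j ≤ i := by
    intro j hj
    obtain ⟨hjk, hab'⟩ := (hS j).1 hj
    by_contra hlt
    push Not at hlt
    have hd : deg k (a2 a j) ≠ 1 := by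
      have := deg_mono (k := k) (fun r _ => le_a2 a j r)
      omega
    have h1 : Bt β k (a2 a j) b i := by
      refine (bta β hβ).1 k (a2 a j) b i hd hdb ?_
      rintro ⟨⟨_, _, h3⟩, _⟩
      have := h3 j hlt hjk
      simp [a2] at this
    exact hnρ (Bt.mono hρ ((btf β k a (a2 a j) b b hab' (RR.refl _)).2 i h1))
  have hSi' : ∀ j, S' j → j ≤ i := by
    intro j hj
    obtain ⟨hjk, hab'⟩ := (hS' j).1 hj
    by_contra hlt
    push Not at hlt
    have hd : deg k (a2 b j) ≠ 1 := by
      have := deg_mono (k := k) (fun r _ => le_a2 b j r)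
      omega
    have h1 : Bt β k a (a2 b j) i := by
      refine (bta β hβ).1 k a (a2 b j) i hda hd ?_
      rintro ⟨_, ⟨_, _, h3⟩⟩
      have := h3 j hlt hjk
      simp [a2] at this
    exact hnρ (Bt.mono hρ ((btf β k a a b (a2 b j) (RR.refl _) hab').2 i h1))
  have hLp : L1 β k a (fun j => (if S j then 2 else 0) + a j) := by
    refine (hab β hap).2 k a _ ?_
    intro j hj
    by_cases h : S j
    · right
      refine ⟨?_, ((hS j).1 h).2⟩
      simp only [if_pos h]
      omega
    · left
      simp only [if_neg h]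
      omega
  have hLp' : L1 β k b (fun j => (if S' j then 2 else 0) + b j) := by
    refine (hab β hap).2 k b _ ?_
    intro j hj
    by_cases h : S' j
    · right
      refine ⟨?_, ((hS' j).1 h).2⟩
      simp only [if_pos h]
      omega
    · left
      simp only [if_neg h]
      omega
  have ty0 : ∀ e, ty (pl S S' (wb a b e)) 0 = fun j => (if S j then 2 else 0) + a j := by
    intro e
    funext j
    have := count0_pl S S' (wb a b e) j
    unfold ty
    rw [this]
    congr 1
    exact count0_bl _ _ _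
  have ty1 : ∀ e, ty (pl S S' (wb a b e)) 1 = fun j => (if S' j then 2 else 0) + b j := by
    intro e
    funext j
    have := count1_pl S S' (wb a b e) j
    unfold ty
    rw [this]
    congr 1
    exact count1_bl _ _ _
  have lpl : Lst k (fun j => (if S j then 2 else 0) + a j) i := by
    refine ⟨la.1, ?_, ?_⟩
    · have := la.2.1
      simp only
      omega
    · intro j hj hjk
      have h1 : ¬ S j := fun h => absurd (hSi j h) (by omega)
      simp only [if_neg h1]
      have := la.2.2 j hj hjk
      omega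
  have hGE : ∀ e, RR β (asm k (pl S S' (wb a b e))) (w2 k a b e) := by
    intro e
    have g := gw2 β hβ.cl k (pl S S' (wb a b e)) e (pl_ok S S' (wb_ok da db e))
      (pl_two S S' (wb_two k a b e)) (by
        intro i' h1 _
        rw [ty0 e] at h1
        have hi : i' = i := lst_uniq lpl h1
        subst hi
        have : (pl S S' (wb a b e) i').getLast? = some (if e i' then 0 else 1) :=
          last_bl la.2.1 lb.2.1 _ _
        rw [this]
        cases e i' <;> simp)
    rw [ty0 e, ty1 e] at g
    exact β.trans g ((btf β k _ a _ b (RR.symm hLp) (RR.symm hLp')).1 e)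
  obtain ⟨e0, he0⟩ : ∃ e0 : ℕ → Bool, ∀ j, e0 j = false := ⟨fun _ => false, fun _ => rfl⟩
  have hA1 : ¬ RR β (w2 k a b e0) (asm k (pl S S' (wb a b (flp e0 i)))) := by
    intro h
    have h1 : RR β (w2 k a b e0) (w2 k a b (flp e0 i)) := β.trans h (hGE (flp e0 i))
    exact hnρ (Bt.mono hρ (w2x β hβ.cl k a b i e0 (flp e0 i) hda hdb la lb
      (by simp [flp, he0]) h1))
  have hstep : ∀ θ : FIC, β ≤ θ → NC2 θ → (∀ j ≤ k, AbF θ k a j → AbF β k a j) →
      (∀ j ≤ k, AbF θ k b j → AbF β k b j) → ¬ Bt θ k a b i → ∀ B B' : ℕ → List ℕ, OkB k B →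
      OkB k B' → Two01 k B' → RR θ (asm k B) (asm k B') →
      RR β (w2 k a b e0) (asm k (pl S S' B)) → RR β (w2 k a b e0) (asm k (pl S S' B')) := by
    intro θ hle nθ hθa hθb hnθ B B' hB hB' h2 hr hA
    have h1 : RR θ (asm k (pl S S' B)) (asm k (pl S S' B')) := by
      have := rr_ins' θ (pf S S') (fun _ => []) hB.ok hB'.ok hr
      simp only [List.append_nil] at this
      exact this
    have h3 : RR θ (asm k (wb a b e0)) (asm k (pl S S' B')) := θ.trans (hle _ _ hA) h1
    have hokp : OkB k (pl S S' B') := pl_ok S S' hB'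
    have t0 : L1 θ k a (ty (pl S S' B') 0) := by
      have := one.1 θ k (wb a b e0) (pl S S' B') 0 (ns0 k) (wb_ok da db e0).ok hokp.ok h3
      have he : (fun j => (wb a b e0 j).count 0) = a := by
        funext r
        exact count0_bl _ _ _
      rw [he] at this
      exact this
    have t1 : L1 θ k b (ty (pl S S' B') 1) := by
      have := one.1 θ k (wb a b e0) (pl S S' B') 1 (ns1 k) (wb_ok da db e0).ok hokp.ok h3
      have he : (fun j => (wb a b e0 j).count 1) = b := by
        funext r
        exact count1_bl _ _ _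
      rw [he] at this
      exact this
    have l0 : L1 β k a (ty (pl S S' B') 0) := by
      refine (hab β hap).2 k a _ ?_
      intro j hj
      by_cases h : AbF θ k a j
      · right
        refine ⟨?_, hθa j hj h⟩
        have hs : S j := (hS j).2 ⟨hj, hθa j hj h⟩
        unfold ty
        rw [count0_pl, if_pos hs]
        omega
      · left
        exact (hOL.key θ hle nθ k a _ t0 j hj h).symm
    have l1 : L1 β k b (ty (pl S S' B') 1) := by
      refine (hab β hap).2 k b _ ?_
      intro j hj
      by_cases h : AbF θ k b j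
      · right
        refine ⟨?_, hθb j hj h⟩
        have hs : S' j := (hS' j).2 ⟨hj, hθb j hj h⟩
        unfold ty
        rw [count1_pl, if_pos hs]
        omega
      · left
        exact (hOL.key θ hle nθ k b _ t1 j hj h).symm
    obtain ⟨e', he'⟩ : ∃ e' : ℕ → Bool, ∀ j, e' j = true ↔
        (pl S S' B' j).getLast? = some 0 :=
      ⟨fun j => decide ((pl S S' B' j).getLast? = some 0), fun j => by simp⟩
    have g := gw2 β hβ.cl k (pl S S' B') e' hokp (pl_two S S' h2) (fun i' _ _ => he' i')
    have g2 : RR β (asm k (pl S S' B')) (w2 k a b e') :=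
      β.trans g ((btf β k _ a _ b (RR.symm l0) (RR.symm l1)).1 e')
    by_cases he : e' i = true
    · exfalso
      have h4 : RR θ (w2 k a b e0) (w2 k a b e') := θ.trans h3 (hle _ _ g2)
      exact hnθ (w2x θ (ClA.mono hβ.cl hle) k a b i e0 e' hda hdb la lb
        (by rw [he0, he]; decide) h4)
    · have h5 : RR β (w2 k a b e0) (w2 k a b e') := by
        refine w2r β hβ.cl k a b e0 e' hda hdb ?_
        intro i' h _
        have hi : i' = i := lst_uniq la h
        rw [hi, he0]
        simpa using he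
      exact β.trans h5 (RR.symm g2)
  obtain ⟨B'', hv, hok'', -, hch⟩ := chn β ρ σ (ica β hβ) hρ hσ nρ nσ k (wb a b e0)
    (w2 k a b (flp e0 i)) (wb_ok da db e0) (hsup e0)
  have hall : ∀ C, Relation.ReflTransGen (StM ρ σ k) (wb a b e0) C →
      Two01 k C ∧ RR β (w2 k a b e0) (asm k (pl S S' C)) := by
    intro C hC
    induction hC with
    | refl => exact ⟨wb_two k a b e0, RR.symm (hGE e0)⟩
    | @tail C1 C2 _ hst ih =>
      obtain ⟨ho, ho', hsub, hor⟩ := hst
      have htw : Two01 k C2 := by
        intro j hj c hc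
        obtain ⟨j', hj', hc'⟩ := hsub c ⟨j, hj, hc⟩
        exact ih.1 j' hj' c hc'
      refine ⟨htw, ?_⟩
      rcases hor with h | h
      · exact hstep ρ hρ nρ (fun j hj => (habs j hj).1) (fun j hj => (habs j hj).2.2.1) hnρ _ _
          ho ho' htw h ih.2
      · exact hstep σ hσ nσ (fun j hj => (habs j hj).2.1) (fun j hj => (habs j hj).2.2.2) hnσ _ _
          ho ho' htw h ih.2
  have hu := uniq (wb_ok da db (flp e0 i)).ok hok''.ok hv
  have hfin := (hall B'' hch).2
  have hcong : asm k (pl S S' (wb a b (flp e0 i))) = asm k (pl S S' B'') :=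
    asm_congr (fun j hj => by unfold pl; rw [hu j hj])
  rw [← hcong] at hfin
  exact hA1 hfin

end Pool.Agent.MWA.H94
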